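import Pool.Agent.Helper56.Un.E8Stmts
import Pool.Agent.Helper19.Un.Alg

/-!
# E_LOW: the lower bound for the weighted sum over all cusps (lattice `E₈`)
-/

set_option autoImplicit false

namespace Pool.Agent.Helper19.Un

open MeasureTheory Topology
open scoped ComplexConjugate

/-! ### units -/

/-- coordinates of the six units of the Eisenstein integers -/
def elow_c : Fin 6 → ℤ × ℤ := ![(1, 0), (0, 1), (-1, -1), (-1, 0), (0, -1), (1, 1)]

theorem elow_c_inj : Function.Injective elow_c := by decide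

/-- the six units -/
noncomputable def elow_u (k : Fin 6) : ℂ := (elow_c k).1 + (elow_c k).2 * om

theorem elow_u_mem (k : Fin 6) : elow_u k ∈ Eis := ⟨(elow_c k).1, (elow_c k).2, rfl⟩

theorem elow_u_norm (k : Fin 6) : ‖elow_u k‖ = 1 := by
  have h3 : Real.sqrt 3 ^ 2 = 3 := Real.sq_sqrt (by norm_num)
  have h : ‖elow_u k‖ ^ 2 = 1 := by
    rw [Complex.sq_norm, Complex.normSq_apply]
    unfold elow_u om
    have hc : ∀ k : Fin 6, (elow_c k).1 ^ 2 - (elow_c k).1 * (elow_c k).2 + (elow_c k).2 ^ 2 = 1 := by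
      decide
    have hk := hc k
    generalize (elow_c k).1 = a at *
    generalize (elow_c k).2 = b at *
    have hk' : (a : ℝ) ^ 2 - a * b + b ^ 2 = 1 := by exact_mod_cast hk
    simp
    linear_combination hk' + (b ^ 2 / 4 : ℝ) * h3
  have h0 : 0 ≤ ‖elow_u k‖ := norm_nonneg _
  nlinarith

theorem elow_u_inj : Function.Injective elow_u := by
  intro k k' h
  have hs0 : 0 < Real.sqrt 3 := Real.sqrt_pos.2 (by norm_num)
  apply elow_c_inj
  have him := congrArg Complex.im h
  have hre := congrArg Complex.re h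
  unfold elow_u om at him hre
  simp at him hre
  have h2 : (elow_c k).2 = (elow_c k').2 := him
  rw [h2] at hre
  have h1 : (elow_c k).1 = (elow_c k').1 := by
    have : ((elow_c k).1 : ℝ) = (elow_c k').1 := by linarith
    exact_mod_cast this
  exact Prod.ext h1 h2

/-! ### coordinates -/

theorem elow_xe_sub (ζ b : E 4) (i : Fin 8) : xe (ζ - b) i = xe ζ i - xe b i := by
  unfold xe
  rw [inner_sub_right, Complex.sub_re]
  ring

/-- the lattice vector with coordinates `A / 2` -/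
noncomputable def elow_b (A : Fin 8 → ℤ) : E 4 := ∑ i, ((A i : ℝ) / 2) • eE i

theorem elow_xe_b (hI : ST_EISO) (A : Fin 8 → ℤ) (i : Fin 8) : xe (elow_b A) i = (A i : ℝ) / 2 := by
  unfold xe elow_b
  rw [inner_sum, Complex.re_sum]
  have h : ∀ j, (inner ℂ (eE i) (((A j : ℝ) / 2) • eE j) : ℂ).re
      = if i = j then 3 / 2 * ((A j : ℝ) / 2) else 0 := by
    intro j
    have h1 : (((A j : ℝ) / 2) • eE j : E 4) = (((A j : ℝ) / 2 : ℝ) : ℂ) • eE j := by
      rw [Complex.coe_smul]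
    rw [h1, inner_smul_right, Complex.re_ofReal_mul, hI.1 i j]
    split_ifs <;> ring
  rw [Finset.sum_congr rfl fun j _ => h j, Finset.sum_ite_eq]
  simp
  ring

theorem elow_b_mem (hI : ST_EISO) {A : Fin 8 → ℤ} (hA : GA A) : elow_b A ∈ E8L :=
  (hI.2.2.2 _).2 ⟨A, hA, elow_xe_b hI A⟩

theorem elow_dist (hI : ST_EISO) (ζ : E 4) (A : Fin 8 → ℤ) :
    2 / 3 * ‖ζ - elow_b A‖ ^ 2 = sq8 (xe ζ) A := by
  rw [hI.2.2.1]
  unfold sq8
  exact Finset.sum_congr rfl fun i _ => by rw [elow_xe_sub, elow_xe_b hI]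

/-- the sum of the squares of the coordinates is an even integer -/
theorem elow_GA {A : Fin 8 → ℤ} (hA : GA A) : ∃ y : ℤ, ∑ i, ((A i : ℝ) / 2) ^ 2 = 2 * (y : ℝ) := by
  have key : ∃ y : ℤ, ∑ i, A i ^ 2 = 8 * y := by
    obtain ⟨h | h, hs⟩ := hA
    · have h1 : ∀ i, ∃ B : ℤ, A i = 2 * B := fun i => ⟨A i / 2, by have := h i; omega⟩
      choose B hB using h1
      have h2 : ∀ i, ∃ C : ℤ, B i ^ 2 = B i + 2 * C := by
        intro i
        obtain ⟨k, hk⟩ := Int.even_mul_succ_self (B i - 1)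
        exact ⟨k, by linear_combination hk⟩
      choose C hC using h2
      obtain ⟨k, hk⟩ : ∃ k, ∑ i, A i = 4 * k := ⟨(∑ i, A i) / 4, by omega⟩
      have h3 : ∑ i, A i = 2 * ∑ i, B i := by
        rw [Finset.mul_sum]
        exact Finset.sum_congr rfl fun i _ => hB i
      have h4 : ∑ i, A i ^ 2 = 4 * (∑ i, B i + 2 * ∑ i, C i) := by
        rw [Finset.mul_sum, ← Finset.sum_add_distrib, Finset.mul_sum]
        refine Finset.sum_congr rfl fun i _ => ?_
        rw [← hC i, hB i]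
        ring
      refine ⟨k + ∑ i, C i, ?_⟩
      rw [h4]
      omega
    · have h1 : ∀ i, ∃ B : ℤ, A i = 2 * B + 1 := fun i => ⟨A i / 2, by have := h i; omega⟩
      choose B hB using h1
      have h2 : ∀ i, ∃ C : ℤ, A i ^ 2 = 1 + 8 * C := by
        intro i
        obtain ⟨k, hk⟩ := Int.even_mul_succ_self (B i)
        exact ⟨k, by rw [hB i]; linear_combination 4 * hk⟩
      choose C hC using h2
      refine ⟨1 + ∑ i, C i, ?_⟩
      rw [Finset.sum_congr rfl fun i _ => hC i, Finset.sum_add_distrib, ← Finset.mul_sum]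
      simp
      ring
  obtain ⟨y, hy⟩ := key
  refine ⟨y, ?_⟩
  have h1 : ((∑ i, A i ^ 2 : ℤ) : ℝ) = ((8 * y : ℤ) : ℝ) := by rw [hy]
  push_cast at h1
  have h2 : ∑ i, ((A i : ℝ) / 2) ^ 2 = (∑ i, (A i : ℝ) ^ 2) / 4 := by
    rw [Finset.sum_div]
    exact Finset.sum_congr rfl fun i _ => by ring
  rw [h2, h1]
  ring

theorem elow_b_norm (hI : ST_EISO) {A : Fin 8 → ℤ} (hA : GA A) :
    ∃ k : ℤ, ‖elow_b A‖ ^ 2 = 3 * k := by
  have h := hI.2.2.1 (elow_b A)
  obtain ⟨y, hy⟩ := elow_GA hA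
  refine ⟨y, ?_⟩
  have h3 : ∑ i, xe (elow_b A) i ^ 2 = ∑ i, ((A i : ℝ) / 2) ^ 2 :=
    Finset.sum_congr rfl fun i _ => by rw [elow_xe_b hI]
  rw [h3, hy] at h
  linarith

/-! ### central translates -/

theorem elow_th_mul (x k : ℤ) : (th * (x + k * om)).re = -(3 * k / 2) ∧
    (th * (x + k * om)).im = Real.sqrt 3 * (x - k / 2) := by
  have h3 : Real.sqrt 3 ^ 2 = 3 := Real.sq_sqrt (by norm_num)
  unfold th om
  constructor
  · simp
    linear_combination ((k : ℝ) / 2) * h3
  · simp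
    ring

/-- `2 / √3` times the imaginary part of the product with `(a, b, 1)` -/
noncomputable def elow_V (p : Pt 4) (a : ℂ) (b : E 4) : ℝ :=
  2 / Real.sqrt 3 * (herm (vec p) ((a, b, 1) : V 4)).im

theorem elow_herm (p : Pt 4) (a : ℂ) (b : E 4) :
    herm (vec p) ((a, b, 1) : V 4) = p.1 + inner ℂ b p.2 + conj a := by
  simp [herm, vec]

theorem elow_two (hI : ST_EISO) (p : Pt 4) {A : Fin 8 → ℤ} (hA : GA A) :
    ∃ a a' : ℂ, a ≠ a' ∧ NE8 a (elow_b A) ∧ NE8 a' (elow_b A) ∧ |elow_V p a (elow_b A)| ≤ 1 ∧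
      elow_V p a' (elow_b A) ^ 2 = (2 - |elow_V p a (elow_b A)|) ^ 2 := by
  obtain ⟨k, hk⟩ := elow_b_norm hI hA
  have hs0 : 0 < Real.sqrt 3 := Real.sqrt_pos.2 (by norm_num)
  have hmem := elow_b_mem hI hA
  have hND : ∀ x : ℤ, NE8 (th * (x + k * om)) (elow_b A) := by
    intro x
    refine ⟨⟨x + k * om, ⟨x, k, rfl⟩, rfl⟩, hmem, ?_⟩
    rw [(elow_th_mul x k).1, hk]
    ring
  obtain ⟨c, hc⟩ : ∃ c : ℝ, ∀ x : ℤ, elow_V p (th * (x + k * om)) (elow_b A) = c - 2 * x := by
    refine ⟨2 / Real.sqrt 3 * ((p.1 + inner ℂ (elow_b A) p.2).im + Real.sqrt 3 * (k / 2)), ?_⟩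
    intro x
    unfold elow_V
    rw [elow_herm, Complex.add_im, Complex.conj_im, (elow_th_mul x k).2]
    field_simp
    ring
  have hne : ∀ x x' : ℤ, x ≠ x' → th * (x + k * om) ≠ th * (x' + k * om) := by
    intro x x' hx h
    apply hx
    have h1 := congrArg Complex.im h
    rw [(elow_th_mul x k).2, (elow_th_mul x' k).2] at h1
    have h2 := mul_left_cancel₀ hs0.ne' h1
    have h4 : (x : ℝ) = x' := by linarith
    exact_mod_cast h4
  obtain ⟨x, hx⟩ : ∃ x : ℤ, |c / 2 - x| ≤ 1 / 2 := ⟨round (c / 2), abs_sub_round _⟩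
  have hV : |elow_V p (th * (x + k * om)) (elow_b A)| ≤ 1 := by
    rw [hc]
    have e : c - 2 * x = 2 * (c / 2 - x) := by ring
    rw [e, abs_mul, abs_two]
    linarith
  by_cases hs : 0 ≤ c - 2 * x
  · refine ⟨th * (x + k * om), th * ((x + 1 : ℤ) + k * om), hne _ _ (by omega), hND x, hND (x + 1),
      hV, ?_⟩
    rw [hc, hc, abs_of_nonneg hs]
    push_cast
    ring
  · rw [not_le] at hs
    refine ⟨th * (x + k * om), th * ((x - 1 : ℤ) + k * om), hne _ _ (by omega), hND x, hND (x - 1),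
      hV, ?_⟩
    rw [hc, hc, abs_of_neg hs]
    push_cast
    ring

/-! ### the value of `uval` -/

theorem elow_uval {p : Pt 4} (hp : p ∈ SD 4) {a : ℂ} {b : E 4} (hab : 2 * a.re + ‖b‖ ^ 2 = 0)
    {s : ℂ} (hs : ‖s‖ = 1) {w : V 4} (hw : th • w = s • ((a, b, 1) : V 4)) :
    uval w p = ((3 / 2 * (2 / 3 * ‖p.2 - b‖ ^ 2) + hgt p) ^ 2 + 3 * elow_V p a b ^ 2)
      / (12 * hgt p) := by
  have hp0 : 0 < hgt p := hp
  have h3 : Real.sqrt 3 ^ 2 = 3 := Real.sq_sqrt (by norm_num)
  have hs0 : 0 < Real.sqrt 3 := Real.sqrt_pos.2 (by norm_num)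
  have e1 := uval_smul th w p
  rw [hw, uval_smul, hs] at e1
  have e2 : ‖th‖ ^ 2 = 3 := by
    rw [Complex.sq_norm, Complex.normSq_apply]
    unfold th
    simp
  rw [e2] at e1
  have e3 : uval ((a, b, 1) : V 4) p
      = ((herm (vec p) ((a, b, 1) : V 4)).re ^ 2 + (herm (vec p) ((a, b, 1) : V 4)).im ^ 2) / hgt p := by
    unfold uval
    rw [Complex.sq_norm, Complex.normSq_apply]
    ring
  have e4 : (herm (vec p) ((a, b, 1) : V 4)).re = -(hgt p + ‖p.2 - b‖ ^ 2) / 2 := by
    rw [elow_herm, norm_sub_sq_c]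
    have e5 : (inner ℂ p.2 b : ℂ).re = (inner ℂ b p.2 : ℂ).re := by
      rw [← inner_conj b p.2, Complex.conj_re]
    rw [e5]
    simp only [Complex.add_re, Complex.conj_re]
    unfold hgt
    linear_combination (1 / 2 : ℝ) * hab
  have e6 : (herm (vec p) ((a, b, 1) : V 4)).im ^ 2 = 3 / 4 * elow_V p a b ^ 2 := by
    unfold elow_V
    rw [mul_pow, div_pow, h3]
    ring
  rw [e3, e4, e6] at e1
  have e7 : uval w p = 1 / 3 * (1 ^ 2 * (((-(hgt p + ‖p.2 - b‖ ^ 2) / 2) ^ 2 + 3 / 4 * elow_V p a b ^ 2)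
      / hgt p)) := by
    rw [e1]; ring
  rw [e7]
  field_simp
  ring

theorem elow_b_inj (hI : ST_EISO) {A A' : Fin 8 → ℤ} (h : elow_b A = elow_b A') : A = A' := by
  funext i
  have h1 := elow_xe_b hI A i
  rw [h, elow_xe_b hI A' i] at h1
  have h2 : (A' i : ℝ) = A i := by linarith
  exact_mod_cast h2.symm

theorem elow_gE_nonneg {u : ℝ} (hu : 0 < u) : 0 ≤ gE u := by
  unfold gE
  apply mul_nonneg
  · unfold muP
    have h1 : 0 < 1 / u := by positivity
    have hpi := Real.pi_pos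
    apply le_min <;> positivity
  · exact add_nonneg (le_max_left _ _) (le_max_left _ _)

theorem elow_gam_pos (H : ℝ) : 0 < gam H := by
  unfold gam
  split_ifs <;> norm_num

/-- Cauchy's inequality for the barycentric weights -/
theorem elow_cs {n : ℕ} (lam X : Fin n → ℝ) (hl : ∀ j, 0 ≤ lam j) (h0 : 0 ≤ ∑ j, lam j * X j) :
    (∑ j, lam j * X j) ^ 2 ≤ (∑ j, lam j ^ 2) * ∑ j, max 0 (X j) ^ 2 := by
  have h1 : ∑ j, lam j * X j ≤ ∑ j, lam j * max 0 (X j) :=
    Finset.sum_le_sum fun j _ => mul_le_mul_of_nonneg_left (le_max_right _ _) (hl j)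
  have h2 : (∑ j, lam j * X j) ^ 2 ≤ (∑ j, lam j * max 0 (X j)) ^ 2 :=
    pow_le_pow_left₀ h0 h1 2
  exact h2.trans (Finset.sum_mul_sq_le_sq_mul_sq _ _ _)

theorem st_ELOW (hI : ST_EISO) (hO : ST_EORB) (hBAR : ST_EBAR) (hPAIR : ST_EPAIR) (hW0 : ST_EW)
    (hLOWX : ST_ELOWX) : ST_ELOW := by
  intro p hp hH hmin
  have hp0 : 0 < hgt p := hp
  obtain ⟨n, v, lam, s, t, σ, hinj, hGA, hlam0, hlam1, hs0, hσ0, hσ1, hst, hd1, hd2, hl2, j0, hj0⟩ :=
    hBAR (xe p.2)
  choose a a' hne hND hND' hV hV' using fun j => elow_two hI p (hGA j)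
  obtain ⟨A, hAt, hAf⟩ : ∃ A : Fin n → Bool → ℂ, (∀ j, A j true = a j) ∧
      (∀ j, A j false = a' j) := ⟨fun j ε => if ε then a j else a' j, fun _ => rfl, fun _ => rfl⟩
  have hAND : ∀ j ε, NE8 (A j ε) (elow_b (v j)) := by
    intro j ε
    cases ε
    · rw [hAf]; exact hND' j
    · rw [hAt]; exact hND j
  choose W hW hW' using fun (s : Fin 6) (j : Fin n) (ε : Bool) =>
    hO.2.1 (A j ε) (elow_b (v j)) (hAND j ε) (elow_u s) (elow_u_mem s) (elow_u_norm s)
  -- the family of orbit vectors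
  obtain ⟨G, hGn, hGs⟩ : ∃ G : Fin 6 × Option (Fin n × Bool) → Orb ME8,
      (∀ s, (G (s, none) : V 4) = elow_u s • w0) ∧
      (∀ s r, (G (s, some r) : V 4) = W s r.1 r.2) := by
    refine ⟨fun q => match q with
      | (s, none) => ⟨elow_u s • w0, hO.2.2 _ (elow_u_mem s) (elow_u_norm s)⟩
      | (s, some r) => ⟨W s r.1 r.2, hW s r.1 r.2⟩, fun _ => rfl, fun _ _ => rfl⟩
  have hu0 : ∀ s, elow_u s ≠ 0 := by
    intro s h
    have := elow_u_norm s
    rw [h, norm_zero] at this
    exact zero_ne_one this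
  have hmix : ∀ s s' r, (G (s, none) : V 4) ≠ (G (s', some r) : V 4) := by
    intro s s' r h
    have h1 := congrArg (fun w : V 4 => (th • w).2.2) h
    simp only [hGn, hGs, hW'] at h1
    have h2 : (th • (elow_u s • (w0 : V 4))).2.2 = 0 := by
      simp [w0]
    have h3 : (elow_u s' • ((A r.1 r.2, elow_b (v r.1), 1) : V 4)).2.2 = elow_u s' := by
      simp
    rw [h2, h3] at h1
    exact hu0 s' h1.symm
  have hG : Function.Injective G := by
    rintro ⟨s, o⟩ ⟨s', o'⟩ h
    have h0 : (G (s, o) : V 4) = (G (s', o') : V 4) := congrArg Subtype.val h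
    cases o with
    | none =>
      cases o' with
      | none =>
        rw [hGn, hGn] at h0
        have h1 := congrArg (fun w : V 4 => w.1) h0
        have h2 : elow_u s = elow_u s' := by simpa [w0] using h1
        rw [elow_u_inj h2]
      | some r => exact absurd h0 (hmix _ _ _)
    | some r =>
      cases o' with
      | none => exact absurd h0.symm (hmix _ _ _)
      | some r' =>
        rw [hGs, hGs] at h0
        have h1 := congrArg (fun w : V 4 => th • w) h0
        simp only [hW'] at h1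
        have h2 : elow_u s = elow_u s' := by
          have := congrArg (fun w : V 4 => w.2.2) h1
          simpa using this
        rw [h2] at h1
        have h3 : ((A r.1 r.2, elow_b (v r.1), 1) : V 4) = (A r'.1 r'.2, elow_b (v r'.1), 1) :=
          smul_right_injective _ (hu0 s') h1
        have h4 : elow_b (v r.1) = elow_b (v r'.1) := congrArg (fun w : V 4 => w.2.1) h3
        have h5 : r.1 = r'.1 := hinj (elow_b_inj hI h4)
        have h6 : A r.1 r.2 = A r'.1 r'.2 := congrArg (fun w : V 4 => w.1) h3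
        have h7 : r.2 = r'.2 := by
          rw [← h5] at h6
          by_contra hc
          cases hr : r.2
          · have hr' : r'.2 = true := by
              cases hr' : r'.2
              · exact absurd (hr.trans hr'.symm) hc
              · rfl
            rw [hr, hr', hAf, hAt] at h6
            exact hne _ h6.symm
          · have hr' : r'.2 = false := by
              cases hr' : r'.2
              · rfl
              · exact absurd (hr.trans hr'.symm) hc
            rw [hr, hr', hAf, hAt] at h6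
            exact hne _ h6
        rw [elow_u_inj h2, Prod.ext h5 h7]
  -- values
  have hval0 : ∀ s, uval (G (s, none) : V 4) p = 1 / hgt p := by
    intro s
    rw [hGn, uval_smul, elow_u_norm, uval_w0]
    ring
  have hvalU : ∀ s r, uval (G (s, some r) : V 4) p =
      ((3 / 2 * sq8 (xe p.2) (v r.1) + hgt p) ^ 2 + 3 * elow_V p (A r.1 r.2) (elow_b (v r.1)) ^ 2)
        / (12 * hgt p) := by
    intro s r
    have h := elow_uval hp (hAND r.1 r.2).2.2 (elow_u_norm s) (hW' s r.1 r.2)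
    rw [hGs, h, elow_dist hI]
  have hsq0 : ∀ j, 0 ≤ sq8 (xe p.2) (v j) := fun j => Finset.sum_nonneg fun i _ => sq_nonneg _
  have hV2 : ∀ j, elow_V p (a j) (elow_b (v j)) ^ 2 ≤ 1 := by
    intro j
    rw [← sq_abs]
    have h0 := abs_nonneg (elow_V p (a j) (elow_b (v j)))
    have := hV j
    nlinarith
  have hmina : ∀ j, 1 / hgt p ≤ ((3 / 2 * sq8 (xe p.2) (v j) + hgt p) ^ 2
      + 3 * elow_V p (a j) (elow_b (v j)) ^ 2) / (12 * hgt p) := by
    intro j
    have h1 := hmin (G (0, some (j, true))) (G (0, some (j, true))).2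
    rw [hvalU] at h1
    simp only [hAt] at h1
    exact h1
  -- highest cusp
  have hhigh : ∀ j, 3 ≤ 3 / 2 * sq8 (xe p.2) (v j) + hgt p := by
    intro j
    have h1 := hmina j
    rw [div_le_div_iff₀ hp0 (by positivity)] at h1
    have h2 := hV2 j
    have h0 := hsq0 j
    have h3 : 12 ≤ (3 / 2 * sq8 (xe p.2) (v j) + hgt p) ^ 2
        + 3 * elow_V p (a j) (elow_b (v j)) ^ 2 := by
      by_contra hc
      rw [not_le] at hc
      have := mul_lt_mul_of_pos_right hc hp0
      nlinarith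
    have h5 : 0 ≤ 3 / 2 * sq8 (xe p.2) (v j) + hgt p := by positivity
    nlinarith
  -- the sum
  have hFr : ∀ w : Orb ME8, ENNReal.ofReal (muP 4 (4 / 3) (Real.sqrt 3) (1 / uval w p) *
      psE8 (1 / uval w p)) = ENNReal.ofReal (gE (uval (w : V 4) p)) := by
    intro w
    unfold gE psE8
    rw [one_div_one_div]
  rw [tsum_congr hFr]
  refine le_trans ?_ (ENNReal.tsum_comp_le_tsum_of_injective hG _)
  rw [tsum_fintype, ← ENNReal.ofReal_sum_of_nonneg (fun q _ =>
    elow_gE_nonneg (uval_pos (G q).2 hp))]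
  apply ENNReal.ofReal_le_ofReal
  rw [Fintype.sum_prod_type]
  have hsum : ∀ s : Fin 6, ∑ o, gE (uval (G (s, o) : V 4) p)
      = gE (1 / hgt p) + ∑ j : Fin n,
        (gE (((3 / 2 * sq8 (xe p.2) (v j) + hgt p) ^ 2
            + 3 * elow_V p (a j) (elow_b (v j)) ^ 2) / (12 * hgt p))
        + gE (((3 / 2 * sq8 (xe p.2) (v j) + hgt p) ^ 2 +
          3 * (2 - |elow_V p (a j) (elow_b (v j))|) ^ 2) / (12 * hgt p))) := by
    intro s
    rw [Fintype.sum_option, hval0]
    congr 1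
    rw [Fintype.sum_prod_type]
    refine Finset.sum_congr rfl fun j _ => ?_
    rw [Fintype.sum_bool, hvalU, hvalU]
    simp only [hAt, hAf, hV']
  rw [Finset.sum_congr rfl fun s _ => hsum s, Finset.sum_const, Finset.card_univ, Fintype.card_fin,
    nsmul_eq_mul]
  push_cast
  have hw00 := hW0.1 (hgt p) hH
  have hnn : 0 ≤ ∑ j : Fin n,
        (gE (((3 / 2 * sq8 (xe p.2) (v j) + hgt p) ^ 2
            + 3 * elow_V p (a j) (elow_b (v j)) ^ 2) / (12 * hgt p))
        + gE (((3 / 2 * sq8 (xe p.2) (v j) + hgt p) ^ 2 +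
          3 * (2 - |elow_V p (a j) (elow_b (v j))|) ^ 2) / (12 * hgt p))) := by
    refine Finset.sum_nonneg fun j _ => ?_
    have h0 := hsq0 j
    exact add_nonneg (elow_gE_nonneg (by positivity)) (elow_gE_nonneg (by positivity))
  by_cases hH2 : hgt p ≤ 21 / 5
  · -- pairs of central translates
    have hpair : ∀ j, 50 * gam (hgt p) * max 0 (77 / 100 -
        ((3 / 2 * sq8 (xe p.2) (v j) + hgt p) ^ 2 + 3) / (12 * hgt p)) ^ 2 ≤
        gE (((3 / 2 * sq8 (xe p.2) (v j) + hgt p) ^ 2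
            + 3 * elow_V p (a j) (elow_b (v j)) ^ 2) / (12 * hgt p))
        + gE (((3 / 2 * sq8 (xe p.2) (v j) + hgt p) ^ 2 +
          3 * (2 - |elow_V p (a j) (elow_b (v j))|) ^ 2) / (12 * hgt p)) := by
      intro j
      have hva := hV j
      have hva0 := abs_nonneg (elow_V p (a j) (elow_b (v j)))
      have hm := hmina j
      rw [← sq_abs (elow_V p (a j) (elow_b (v j)))] at hm ⊢
      generalize |elow_V p (a j) (elow_b (v j))| = w at hva hva0 hm ⊢
      generalize (3 / 2 * sq8 (xe p.2) (v j) + hgt p) ^ 2 = q at hm ⊢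
      generalize hgt p = H at hp0 hH hH2 hm ⊢
      have hd : (77 / 100 - (q + 3 * w ^ 2) / (12 * H)) - (77 / 100 - (q + 3 * (2 - w) ^ 2) / (12 * H))
          = (1 - w) / H := by
        field_simp
        ring
      have h := hPAIR H (77 / 100 - (q + 3 * w ^ 2) / (12 * H))
        (77 / 100 - (q + 3 * (2 - w) ^ 2) / (12 * H)) hH hH2
        (by
          have : 0 ≤ (1 - w) / H := div_nonneg (by linarith) hp0.le
          linarith)
        (by
          rw [hd]
          exact div_le_div_of_nonneg_right (by linarith) hp0.le)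
        (by linarith)
      have e1 : (77 / 100 - (q + 3 * w ^ 2) / (12 * H) + (77 / 100 - (q + 3 * (2 - w) ^ 2) / (12 * H))) / 2
          + H * ((77 / 100 - (q + 3 * w ^ 2) / (12 * H)) - (77 / 100 - (q + 3 * (2 - w) ^ 2) / (12 * H))) ^ 2 / 4
          = 77 / 100 - (q + 3) / (12 * H) := by
        rw [hd]
        field_simp
        ring
      rw [e1, sub_sub_cancel, sub_sub_cancel] at h
      exact h
    -- the barycentric argument
    have hsumX : ∑ j, lam j * (77 / 100 -
        ((3 / 2 * sq8 (xe p.2) (v j) + hgt p) ^ 2 + 3) / (12 * hgt p))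
        = 77 / 100 - (9 / 4 * (∑ j, lam j * sq8 (xe p.2) (v j) ^ 2) + 3 * hgt p * (1 - s)
          + hgt p ^ 2 + 3) / (12 * hgt p) := by
      have e1 : ∀ j, lam j * (77 / 100 -
          ((3 / 2 * sq8 (xe p.2) (v j) + hgt p) ^ 2 + 3) / (12 * hgt p))
          = lam j * (77 / 100 - (hgt p ^ 2 + 3) / (12 * hgt p))
            - (9 / 4 / (12 * hgt p)) * (lam j * sq8 (xe p.2) (v j) ^ 2)
            - (3 * hgt p / (12 * hgt p)) * (lam j * sq8 (xe p.2) (v j)) := by
        intro j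
        field_simp
        ring
      rw [Finset.sum_congr rfl fun j _ => e1 j, Finset.sum_sub_distrib, Finset.sum_sub_distrib,
        ← Finset.sum_mul, ← Finset.mul_sum, ← Finset.mul_sum, hlam1, hd1]
      field_simp
      ring
    have hLa : 0 < ∑ j, lam j ^ 2 := by
      rcases (Finset.sum_nonneg fun (j : Fin n) (_ : j ∈ Finset.univ) => sq_nonneg (lam j)).lt_or_eq
        with h | h
      · exact h
      · exfalso
        have h1 : ∀ j, lam j = 0 := by
          intro j
          have := (Finset.sum_eq_zero_iff_of_nonneg fun j _ => sq_nonneg (lam j)).1 h.symm j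
            (Finset.mem_univ j)
          exact pow_eq_zero_iff (two_ne_zero) |>.1 this
        rw [Finset.sum_congr rfl fun j _ => h1 j, Finset.sum_const_zero] at hlam1
        exact zero_ne_one hlam1
    obtain ⟨hX0, hX⟩ := hLOWX (hgt p) s t σ (∑ j, lam j * sq8 (xe p.2) (v j) ^ 2) (∑ j, lam j ^ 2)
      hH hH2 hs0 hσ0 hσ1 hst (by rw [← hj0]; exact hhigh j0) hd2 hLa hl2
    have hcs := elow_cs lam (fun j => 77 / 100 -
        ((3 / 2 * sq8 (xe p.2) (v j) + hgt p) ^ 2 + 3) / (12 * hgt p)) hlam0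
        (by rw [hsumX]; exact hX0)
    rw [hsumX] at hcs
    have hg := elow_gam_pos (hgt p)
    have hkey : 375 / 2 - w00 (hgt p) ≤ 50 * gam (hgt p) * ∑ j, max 0 (77 / 100 -
        ((3 / 2 * sq8 (xe p.2) (v j) + hgt p) ^ 2 + 3) / (12 * hgt p)) ^ 2 := by
      have h1 := mul_le_mul_of_nonneg_left hcs (show 0 ≤ 50 * gam (hgt p) by positivity)
      have h2 := hX.trans h1
      have h3 : (375 / 2 - w00 (hgt p)) * (∑ j, lam j ^ 2) ≤ (50 * gam (hgt p) * ∑ j, max 0 (77 / 100 -
        ((3 / 2 * sq8 (xe p.2) (v j) + hgt p) ^ 2 + 3) / (12 * hgt p)) ^ 2) * (∑ j, lam j ^ 2) := by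
        refine h2.trans (le_of_eq ?_)
        ring
      exact le_of_mul_le_mul_right h3 hLa
    rw [Finset.mul_sum] at hkey
    have hkey2 := hkey.trans (Finset.sum_le_sum fun j _ => hpair j)
    linarith
  · rw [not_le] at hH2
    have h1 := hW0.2 (hgt p) hH2.le
    linarith

end Pool.Agent.Helper19.Un
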