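import Pool.Agent.Helper56.Un.E8Stmts
import Pool.Agent.Helper19.Un.Alg

/-!
# E_UP: the upper bound for the sum over all cusps (lattice `E₈`)
-/

set_option autoImplicit false

namespace Pool.Agent.Helper19.Un

open MeasureTheory Topology
open scoped ComplexConjugate

theorem eup_s3 : Real.sqrt 3 * Real.sqrt 3 = 3 := Real.mul_self_sqrt (by norm_num)

theorem eup_om2 : om * om = -1 - om := by
  apply Complex.ext
  · simp [om]
    linear_combination (-(1 / 4 : ℝ)) * eup_s3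
  · simp [om]
    ring

theorem eup_th : th = 1 + 2 * om := by
  apply Complex.ext
  · simp [om, th]
    norm_num
  · simp [om, th]
    ring

theorem eup_th2 : th * th = -3 := by
  apply Complex.ext
  · simp [th]
  · simp [th]

theorem eup_th_ne : th ≠ 0 := by
  intro h
  have := eup_th2
  rw [h] at this
  norm_num at this

theorem eup_nth : ‖th‖ ^ 2 = 3 := by
  rw [← Complex.normSq_eq_norm_sq, Complex.normSq_apply]
  simp [th]

theorem eup_ns (a b : ℤ) : ‖(a + b * om : ℂ)‖ ^ 2 = (a ^ 2 - a * b + b ^ 2 : ℝ) := by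
  rw [← Complex.normSq_eq_norm_sq, Complex.normSq_apply]
  simp [om]
  linear_combination (1 / 4 * (b : ℝ) ^ 2) * eup_s3

/-- explicit inverse of a unit -/
theorem eup_inv {u v : ℤ} (h : u ^ 2 - u * v + v ^ 2 = 1) :
    ((u - v : ℤ) + (-v : ℤ) * om : ℂ) * (u + v * om) = 1 := by
  have h' : ((u : ℂ) ^ 2 - u * v + v ^ 2) = 1 := by exact_mod_cast h
  push_cast
  linear_combination h' - (v : ℂ) ^ 2 * eup_om2

theorem eup_eis_mul {x y : ℂ} (hx : x ∈ Eis) (hy : y ∈ Eis) : x * y ∈ Eis := by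
  obtain ⟨a, b, rfl⟩ := hx
  obtain ⟨c, d, rfl⟩ := hy
  refine ⟨a * c - b * d, a * d + b * c - b * d, ?_⟩
  push_cast
  linear_combination (b * d : ℂ) * eup_om2

theorem eup_E8_smul {x : ℂ} (hx : x ∈ Eis) {b : E 4} (hb : b ∈ E8L) : x • b ∈ E8L := by
  obtain ⟨h0, ⟨k, hk, h1⟩, l, hl, h2⟩ := hb
  refine ⟨fun i => ?_, ⟨x * k, eup_eis_mul hx hk, ?_⟩, x * l, eup_eis_mul hx hl, ?_⟩
  · rw [PiLp.smul_apply, smul_eq_mul]
    exact eup_eis_mul hx (h0 i)
  · rw [PiLp.smul_apply, PiLp.smul_apply, PiLp.smul_apply, smul_eq_mul, smul_eq_mul, smul_eq_mul]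
    linear_combination x * h1
  · rw [PiLp.smul_apply, PiLp.smul_apply, PiLp.smul_apply, smul_eq_mul, smul_eq_mul, smul_eq_mul]
    linear_combination x * h2

/-- the formula for the value of a cusp vector -/
theorem eup_form {p : Pt 4} (hp : p ∈ SD 4) {c α : ℂ} {β : E 4} {w : V 4}
    (hw : th • w = ((c * α, c • β, c) : V 4)) (hiso : 2 * α.re + ‖β‖ ^ 2 = 0) :
    uval w p = ‖c‖ ^ 2 * ((3 / 2 * (2 / 3 * ‖p.2 - β‖ ^ 2) + hgt p) ^ 2 +
      3 * (2 / Real.sqrt 3 * (p.1 + inner ℂ β p.2 + conj α).im) ^ 2) / (12 * hgt p) := by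
  have hH : 0 < hgt p := hp
  have h1 : uval (th • w) p = 3 * uval w p := by
    rw [uval_smul, eup_nth]
  have h2 : uval w p = 1 / 3 * uval (th • w) p := by
    rw [h1]
    ring
  have h3 : herm (vec p) (th • w) = conj c * (p.1 + inner ℂ β p.2 + conj α) := by
    rw [hw]
    simp only [herm, vec, inner_smul_left, map_mul, one_mul]
    ring
  have h4 : ‖p.1 + inner ℂ β p.2 + conj α‖ ^ 2 = ((p.1 + inner ℂ β p.2 + conj α).re) ^ 2 +
      ((p.1 + inner ℂ β p.2 + conj α).im) ^ 2 := by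
    rw [← Complex.normSq_eq_norm_sq, Complex.normSq_apply]
    ring
  have h5 : (p.1 + inner ℂ β p.2 + conj α).re = -(hgt p + ‖p.2 - β‖ ^ 2) / 2 := by
    have h6 : ‖p.2 - β‖ ^ 2 = ‖p.2‖ ^ 2 - 2 * (inner ℂ β p.2 : ℂ).re + ‖β‖ ^ 2 := by
      have := norm_sub_sq (𝕜 := ℂ) β p.2
      rw [norm_sub_rev] at this
      rw [this]
      simp only [RCLike.re_eq_complex_re]
      ring
    rw [h6]
    simp only [Complex.add_re, Complex.conj_re]
    unfold hgt
    linarith
  rw [h2]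
  unfold uval
  rw [h3, norm_mul, mul_pow, RCLike.norm_conj, h4, h5]
  have h7 : Real.sqrt 3 ^ 2 = 3 := Real.sq_sqrt (by norm_num)
  have h8 : (2 / Real.sqrt 3 * (p.1 + inner ℂ β p.2 + conj α).im) ^ 2 =
      4 / 3 * ((p.1 + inner ℂ β p.2 + conj α).im) ^ 2 := by
    rw [mul_pow, div_pow, h7]
    ring
  rw [h8]
  field_simp
  ring

theorem eup_xe_sub (a b : E 4) (i : Fin 8) : xe (a - b) i = xe a i - xe b i := by
  unfold xe
  rw [inner_sub_right, Complex.sub_re]
  ring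

/-- the vector with coordinates `A / 2` -/
noncomputable def eupB (A : Fin 8 → ℤ) : E 4 := ∑ i, ((A i : ℝ) / 2) • eE i

theorem eup_xe_B (hI : ST_EISO) (A : Fin 8 → ℤ) (i : Fin 8) : xe (eupB A) i = (A i : ℝ) / 2 := by
  unfold xe eupB
  rw [inner_sum, Complex.re_sum]
  have h : ∀ j, (inner ℂ (eE i) (((A j : ℝ) / 2) • eE j) : ℂ).re
      = if i = j then 3 / 2 * ((A j : ℝ) / 2) else 0 := by
    intro j
    have h1 : (((A j : ℝ) / 2) • eE j : E 4) = (((A j : ℝ) / 2 : ℝ) : ℂ) • eE j := by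
      rw [Complex.coe_smul]
    rw [h1, inner_smul_right, Complex.re_ofReal_mul, hI.1 i j]
    split_ifs <;> ring
  rw [Finset.sum_congr rfl fun j _ => h j, Finset.sum_ite_eq]
  simp
  ring

/-- the sum of the squares of the coordinates -/
noncomputable def eupS (A : Fin 8 → ℤ) : ℝ := ∑ i, ((A i : ℝ) / 2) ^ 2

theorem eup_nB (hI : ST_EISO) (A : Fin 8 → ℤ) : 2 / 3 * ‖eupB A‖ ^ 2 = eupS A := by
  rw [hI.2.2.1]
  exact Finset.sum_congr rfl fun i _ => by rw [eup_xe_B hI]

theorem eup_dB (hI : ST_EISO) (A : Fin 8 → ℤ) (ζ : E 4) :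
    2 / 3 * ‖ζ - eupB A‖ ^ 2 = sq8 (xe ζ) A := by
  rw [hI.2.2.1]
  exact Finset.sum_congr rfl fun i _ => by rw [eup_xe_sub, eup_xe_B hI]

theorem eup_coord (hI : ST_EISO) {b : E 4} (hb : b ∈ E8L) : ∃ A : Fin 8 → ℤ, GA A ∧ b = eupB A := by
  obtain ⟨A, hA, hx⟩ := (hI.2.2.2 b).1 hb
  refine ⟨A, hA, ?_⟩
  conv_lhs => rw [hI.2.1 b]
  unfold eupB
  apply Finset.sum_congr rfl
  intro i _
  rw [hx i]

theorem eup_B_mem (hI : ST_EISO) {A : Fin 8 → ℤ} (hA : GA A) : eupB A ∈ E8L :=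
  (hI.2.2.2 _).2 ⟨A, hA, eup_xe_B hI A⟩

/-- the sum of the squares of the coordinates is an even integer -/
theorem eup_GA {A : Fin 8 → ℤ} (hA : GA A) : ∃ y : ℤ, eupS A = 2 * y := by
  have key : ∃ y : ℤ, ∑ i, A i ^ 2 = 8 * y := by
    obtain ⟨h | h, hs⟩ := hA
    · have h1 : ∀ i, ∃ B : ℤ, A i = 2 * B := fun i => ⟨A i / 2, by have := h i; omega⟩
      choose B hB using h1
      have h2 : ∀ i, ∃ C : ℤ, B i ^ 2 = B i + 2 * C := by
        intro i
        obtain ⟨k, hk⟩ := Int.even_mul_succ_self (B i - 1)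
        exact ⟨k, by linear_combination hk⟩
      choose C hC using h2
      obtain ⟨k, hk⟩ : ∃ k, ∑ i, A i = 4 * k := ⟨(∑ i, A i) / 4, by omega⟩
      have h3 : ∑ i, A i = 2 * ∑ i, B i := by
        rw [Finset.mul_sum]
        exact Finset.sum_congr rfl fun i _ => hB i
      have h4 : ∑ i, A i ^ 2 = 4 * (∑ i, B i + 2 * ∑ i, C i) := by
        rw [Finset.mul_sum, ← Finset.sum_add_distrib, Finset.mul_sum]
        refine Finset.sum_congr rfl fun i _ => ?_
        rw [← hC i, hB i]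
        ring
      refine ⟨k + ∑ i, C i, ?_⟩
      rw [h4]
      omega
    · have h1 : ∀ i, ∃ B : ℤ, A i = 2 * B + 1 := fun i => ⟨A i / 2, by have := h i; omega⟩
      choose B hB using h1
      have h2 : ∀ i, ∃ C : ℤ, A i ^ 2 = 1 + 8 * C := by
        intro i
        obtain ⟨k, hk⟩ := Int.even_mul_succ_self (B i)
        exact ⟨k, by rw [hB i]; linear_combination 4 * hk⟩
      choose C hC using h2
      refine ⟨1 + ∑ i, C i, ?_⟩
      rw [Finset.sum_congr rfl fun i _ => hC i, Finset.sum_add_distrib, ← Finset.mul_sum]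
      simp
      ring
  obtain ⟨y, hy⟩ := key
  refine ⟨y, ?_⟩
  have h1 : ((∑ i, A i ^ 2 : ℤ) : ℝ) = ((8 * y : ℤ) : ℝ) := by rw [hy]
  push_cast at h1
  unfold eupS
  have h2 : ∑ i, ((A i : ℝ) / 2) ^ 2 = (∑ i, (A i : ℝ) ^ 2) / 4 := by
    rw [Finset.sum_div]
    exact Finset.sum_congr rfl fun i _ => by ring
  rw [h2, h1]
  ring

/-- normal form of the cusp vectors with given third coordinate -/
theorem eup_class (hI : ST_EISO) (hO : ST_EORB) {τ : ℂ} (hτ : τ ≠ 0) {u v : ℤ}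
    (huv : u ^ 2 - u * v + v ^ 2 = 1) {w : V 4} (hw : w ∈ Orb ME8)
    (hc : th * w.2.2 = (u + v * om) * τ) :
    ∃ (A : Fin 8 → ℤ) (x y : ℤ), GA A ∧
      th • w = ((((u + v * om) * τ) * (th / τ * (x + y * om)),
        ((u + v * om) * τ) • (τ⁻¹ • eupB A), (u + v * om) * τ) : V 4) ∧
      2 * (th / τ * (x + y * om)).re + ‖τ⁻¹ • eupB A‖ ^ 2 = 0 := by
  obtain ⟨⟨⟨a', ha', h1⟩, h2, h3⟩, hiso, -⟩ := hO.1 w hw
  have hinv := eup_inv huv
  have hei : ((u - v : ℤ) + (-v : ℤ) * om : ℂ) ∈ Eis := ⟨u - v, -v, by push_cast; ring⟩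
  obtain ⟨x, y, hxy⟩ := eup_eis_mul hei ha'
  obtain ⟨n, hn1, hn2⟩ := eup_coord hI (eup_E8_smul hei h2)
  have hcomp : th • w = ((((u + v * om) * τ) * (th / τ * (x + y * om)),
      ((u + v * om) * τ) • (τ⁻¹ • eupB n), (u + v * om) * τ) : V 4) := by
    refine Prod.ext ?_ (Prod.ext ?_ ?_)
    · show (th • w).1 = _
      rw [h1, ← hxy]
      field_simp
      linear_combination (-(th * a' : ℂ)) * hinv
    · show (th • w).2.1 = _
      rw [← hn2, smul_smul, smul_smul]
      have : (u + v * om) * τ * τ⁻¹ * ((u - v : ℤ) + (-v : ℤ) * om : ℂ) = 1 := by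
        field_simp
        linear_combination hinv
      rw [this, one_smul]
    · show th * w.2.2 = _
      exact hc
  refine ⟨n, x, y, hn1, hcomp, ?_⟩
  have h5 : herm (th • w) (th • w) = 0 := by
    rw [herm_smul_left, herm_smul_right, hiso]
    ring
  have h6 := congrArg Complex.re h5
  rw [herm_self_re, Complex.zero_re, hcomp] at h6
  simp only at h6
  have hc0 : (u + v * om : ℂ) * τ ≠ 0 := by
    refine mul_ne_zero ?_ hτ
    intro h
    rw [h, mul_zero] at hinv
    exact zero_ne_one hinv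
  have h7 : (((u + v * om) * τ * (th / τ * (x + y * om)) * conj ((u + v * om) * τ : ℂ))).re =
      ‖(u + v * om : ℂ) * τ‖ ^ 2 * (th / τ * (x + y * om)).re := by
    have e : ((u + v * om) * τ * (th / τ * (x + y * om)) * conj ((u + v * om) * τ : ℂ)) =
      ((‖(u + v * om : ℂ) * τ‖ ^ 2 : ℝ) : ℂ) * (th / τ * (x + y * om)) := by
      have := Complex.mul_conj' ((u + v * om : ℂ) * τ)
      push_cast
      rw [← this]
      ring
    rw [e, Complex.re_ofReal_mul]
  rw [h7, norm_smul, mul_pow] at h6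
  have h8 : ‖(u + v * om : ℂ) * τ‖ ^ 2 ≠ 0 := pow_ne_zero 2 (norm_ne_zero_iff.2 hc0)
  have h9 : ‖(u + v * om : ℂ) * τ‖ ^ 2 * (2 * (th / τ * (x + y * om)).re + ‖τ⁻¹ • eupB n‖ ^ 2) = 0 := by
    linarith
  exact (mul_eq_zero.1 h9).resolve_left h8

/-- value of a vector in a class -/
theorem eup_val (hI : ST_EISO) {p : Pt 4} (hp : p ∈ SD 4) {τ : ℂ} (hτ : τ ≠ 0) {u v : ℤ}
    (huv : u ^ 2 - u * v + v ^ 2 = 1) {w : V 4} {A : Fin 8 → ℤ} {α : ℂ}
    (hw : th • w = ((((u + v * om) * τ) * α, ((u + v * om) * τ) • (τ⁻¹ • eupB A),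
      (u + v * om) * τ) : V 4))
    (hiso : 2 * α.re + ‖τ⁻¹ • eupB A‖ ^ 2 = 0) :
    uval w p = ‖τ‖ ^ 2 * ((3 / 2 * (sq8 (xe (τ • p.2)) A / ‖τ‖ ^ 2) + hgt p) ^ 2 +
      3 * (2 / Real.sqrt 3 * (p.1 + inner ℂ (τ⁻¹ • eupB A) p.2).im
        - 2 / Real.sqrt 3 * α.im) ^ 2) / (12 * hgt p) := by
  rw [eup_form hp hw hiso]
  have h1 : ‖(u + v * om : ℂ) * τ‖ ^ 2 = ‖τ‖ ^ 2 := by
    rw [norm_mul, mul_pow, eup_ns]
    have : (u ^ 2 - u * v + v ^ 2 : ℝ) = 1 := by exact_mod_cast huv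
    rw [this, one_mul]
  have hτ2 : ‖τ‖ ^ 2 ≠ 0 := pow_ne_zero 2 (norm_ne_zero_iff.2 hτ)
  have h2 : 2 / 3 * ‖p.2 - τ⁻¹ • eupB A‖ ^ 2 = sq8 (xe (τ • p.2)) A / ‖τ‖ ^ 2 := by
    rw [← eup_dB hI A (τ • p.2)]
    have e : τ • p.2 - eupB A = τ • (p.2 - τ⁻¹ • eupB A) := by
      rw [smul_sub, smul_smul, mul_inv_cancel₀ hτ, one_smul]
    rw [e, norm_smul, mul_pow]
    field_simp
  have h3 : 2 / Real.sqrt 3 * (p.1 + inner ℂ (τ⁻¹ • eupB A) p.2 + conj α).im =
      2 / Real.sqrt 3 * (p.1 + inner ℂ (τ⁻¹ • eupB A) p.2).im - 2 / Real.sqrt 3 * α.im := by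
    rw [Complex.add_im, Complex.conj_im]
    ring
  rw [h1, h2, h3]

theorem eup_thre (x y : ℝ) : (th * (x + y * om)).re = -(3 / 2 * y) := by
  simp [th, om]
  linear_combination ((1 / 2 : ℝ) * y) * eup_s3

theorem eup_thim (x y : ℝ) : (th * (x + y * om)).im = Real.sqrt 3 * (x - y / 2) := by
  simp [th, om]
  ring

/-- counting lemma -/
theorem eup_sum {A G : Type} [Nonempty G] (F : Finset A) (P : A → Prop) [DecidablePred P] (f : A → ℝ) (T : G → ℝ)
    (Q : G → Prop) (Ψ : G → V 4) (φ : A → V 4) (hφ : Function.Injective φ)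
    (h : ∀ w, P w → ∃ g, Q g ∧ f w = T g ∧ φ w = Ψ g) (B : ℝ)
    (hB : ∀ H : Finset G, (∀ g ∈ H, Q g) → ∑ g ∈ H, T g ≤ B) : ∑ w ∈ F.filter P, f w ≤ B := by
  classical
  have h' : ∀ w, ∃ g, P w → (Q g ∧ f w = T g ∧ φ w = Ψ g) := by
    intro w
    by_cases hw : P w
    · obtain ⟨g, hg⟩ := h w hw
      exact ⟨g, fun _ => hg⟩
    · exact ⟨Classical.arbitrary G, fun hw' => absurd hw' hw⟩
  choose g hg using h'
  have hinj : Set.InjOn g (F.filter P : Set A) := by
    intro a ha b hb hab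
    have ha' := (Finset.mem_filter.1 ha).2
    have hb' := (Finset.mem_filter.1 hb).2
    apply hφ
    rw [(hg a ha').2.2, (hg b hb').2.2, hab]
  have e : ∑ w ∈ F.filter P, f w = ∑ x ∈ (F.filter P).image g, T x := by
    rw [Finset.sum_image hinj]
    apply Finset.sum_congr rfl
    intro w hw
    exact (hg w (Finset.mem_filter.1 hw).2).2.1
  rw [e]
  apply hB
  intro x hx
  obtain ⟨w, hw, rfl⟩ := Finset.mem_image.1 hx
  exact (hg w (Finset.mem_filter.1 hw).2).1

/-- units as pairs -/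
def eupU : Finset (ℤ × ℤ) := {(1, 0), (-1, 0), (0, 1), (0, -1), (1, 1), (-1, -1)}

theorem eupU_spec {e : ℤ × ℤ} (he : e ∈ eupU) : e.1 ^ 2 - e.1 * e.2 + e.2 ^ 2 = 1 := by
  revert e
  decide

theorem eupU_mem {u v : ℤ} (h : u ^ 2 - u * v + v ^ 2 = 1) : (u, v) ∈ eupU := by
  have h1 : (2 * u - v) ^ 2 + 3 * v ^ 2 = 4 := by linear_combination 4 * h
  have hv : v ^ 2 ≤ 1 := by nlinarith [sq_nonneg (2 * u - v)]
  have h2 : (2 * v - u) ^ 2 + 3 * u ^ 2 = 4 := by linear_combination 4 * h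
  have hu : u ^ 2 ≤ 1 := by nlinarith [sq_nonneg (2 * v - u)]
  have hv1 : -1 ≤ v := by nlinarith
  have hv2 : v ≤ 1 := by nlinarith
  have hu1 : -1 ≤ u := by nlinarith
  have hu2 : u ≤ 1 := by nlinarith
  interval_cases u <;> interval_cases v <;> first | (exfalso; revert h; decide) | decide

/-- small norms -/
theorem eup_small {x y : ℤ} (h0 : 0 < x ^ 2 - x * y + y ^ 2) (h7 : x ^ 2 - x * y + y ^ 2 < 7) :
    ∃ e ∈ eupU, (x = e.1 ∧ y = e.2) ∨ (x = e.1 - 2 * e.2 ∧ y = 2 * e.1 - e.2) ∨ (x = 2 * e.1 ∧ y = 2 * e.2) := by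
  have h1 : (2 * x - y) ^ 2 + 3 * y ^ 2 < 28 := by nlinarith
  have hv : y ^ 2 < 16 := by nlinarith [sq_nonneg (2 * x - y)]
  have h2 : (2 * y - x) ^ 2 + 3 * x ^ 2 < 28 := by nlinarith
  have hu : x ^ 2 < 16 := by nlinarith [sq_nonneg (2 * y - x)]
  have hv1 : -4 < y := by nlinarith
  have hv2 : y < 4 := by nlinarith
  have hu1 : -4 < x := by nlinarith
  have hu2 : x < 4 := by nlinarith
  interval_cases x <;> interval_cases y <;> first | (exfalso; revert h0; decide) | (exfalso; revert h7; decide) | decide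

theorem eup_wt_nonneg (u : ℝ) : 0 ≤ wt u := add_nonneg (le_max_left _ _) (le_max_left _ _)

theorem eup_wt_anti {u v : ℝ} (h : u ≤ v) : wt v ≤ wt u := by
  unfold wt
  exact add_le_add (max_le_max le_rfl (by linarith)) (max_le_max le_rfl (by linarith))

/-- the contribution of a class -/
theorem eup_type (hI : ST_EISO) (hO : ST_EORB) {p : Pt 4} (hp : p ∈ SD 4)
    (hmin : ∀ w ∈ Orb ME8, 1 / hgt p ≤ uval w p) {τ : ℂ} (hτ : τ ≠ 0) {e : ℤ × ℤ}
    (he : e ∈ eupU) (Y : (Fin 8 → ℤ) → ℤ → ℝ) (D : (Fin 8 → ℤ) → ℝ) (s : ℝ)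
    (hY : ∀ (A : Fin 8 → ℤ) (x y : ℤ),
      2 * (th / τ * (x + y * om)).re + ‖τ⁻¹ • eupB A‖ ^ 2 = 0 →
      (y : ℝ) = Y A x ∧ 2 / Real.sqrt 3 * (th / τ * (x + y * om)).im = D A + s * x)
    (B : ℝ) (hB : ∀ H : Finset ((Fin 8 → ℤ) × ℤ), (∀ g ∈ H, GA g.1 ∧
      1 / hgt p ≤ ‖τ‖ ^ 2 * ((3 / 2 * (sq8 (xe (τ • p.2)) g.1 / ‖τ‖ ^ 2) + hgt p) ^ 2 +
        3 * (2 / Real.sqrt 3 * (p.1 + inner ℂ (τ⁻¹ • eupB g.1) p.2).im - D g.1 + s * g.2) ^ 2) /
        (12 * hgt p)) →
      ∑ g ∈ H, wt (‖τ‖ ^ 2 * ((3 / 2 * (sq8 (xe (τ • p.2)) g.1 / ‖τ‖ ^ 2) + hgt p) ^ 2 +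
        3 * (2 / Real.sqrt 3 * (p.1 + inner ℂ (τ⁻¹ • eupB g.1) p.2).im - D g.1 + s * g.2) ^ 2) /
        (12 * hgt p)) ≤ B)
    (F : Finset (Orb ME8))
    [DecidablePred fun w : Orb ME8 => th * (w : V 4).2.2 = (e.1 + e.2 * om) * τ] :
    ∑ w ∈ F.filter (fun w : Orb ME8 => th * (w : V 4).2.2 = (e.1 + e.2 * om) * τ),
      wt (uval (w : V 4) p) ≤ B := by
  apply eup_sum F (fun w : Orb ME8 => th * (w : V 4).2.2 = (e.1 + e.2 * om) * τ) _
    (fun g : (Fin 8 → ℤ) × ℤ => wt (‖τ‖ ^ 2 * ((3 / 2 * (sq8 (xe (τ • p.2)) g.1 / ‖τ‖ ^ 2)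
        + hgt p) ^ 2 +
        3 * (2 / Real.sqrt 3 * (p.1 + inner ℂ (τ⁻¹ • eupB g.1) p.2).im - D g.1 + s * g.2) ^ 2) /
        (12 * hgt p)))
    (fun g => GA g.1 ∧ 1 / hgt p ≤ ‖τ‖ ^ 2 * ((3 / 2 * (sq8 (xe (τ • p.2)) g.1 / ‖τ‖ ^ 2)
        + hgt p) ^ 2 +
        3 * (2 / Real.sqrt 3 * (p.1 + inner ℂ (τ⁻¹ • eupB g.1) p.2).im - D g.1 + s * g.2) ^ 2) /
        (12 * hgt p))
    (fun g => ((((e.1 + e.2 * om) * τ) * (th / τ * (((-g.2 : ℤ) : ℂ)
      + ((Y g.1 (-g.2) : ℝ) : ℂ) * om)),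
      ((e.1 + e.2 * om) * τ) • (τ⁻¹ • eupB g.1), (e.1 + e.2 * om) * τ) : V 4))
    (fun w : Orb ME8 => th • (w : V 4)) _ _ B hB
  · intro a b hab
    apply Subtype.ext
    exact smul_right_injective (V 4) eup_th_ne hab
  · intro w hw
    obtain ⟨n, x, y, hn1, hn4, hn5⟩ := eup_class hI hO hτ (eupU_spec he) w.2 hw
    obtain ⟨hy1, hy2⟩ := hY n x y hn5
    have hval := eup_val hI hp hτ (eupU_spec he) hn4 hn5
    have e1 : 2 / Real.sqrt 3 * (p.1 + inner ℂ (τ⁻¹ • eupB n) p.2).im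
        - 2 / Real.sqrt 3 * (th / τ * (x + y * om)).im =
        2 / Real.sqrt 3 * (p.1 + inner ℂ (τ⁻¹ • eupB n) p.2).im - D n + s * ((-x : ℤ) : ℝ) := by
      rw [hy2]
      push_cast
      ring
    rw [e1] at hval
    refine ⟨(n, -x), ⟨hn1, ?_⟩, ?_, ?_⟩
    · rw [← hval]
      exact hmin _ w.2
    · rw [hval]
    · show th • (w : V 4) = _
      rw [hn4]
      have e2 : ((y : ℤ) : ℂ) = ((Y n (- -x) : ℝ) : ℂ) := by
        rw [neg_neg, ← hy1]
        norm_cast
      simp only [neg_neg] at e2 ⊢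
      rw [e2]

theorem eup_Y1 (hI : ST_EISO) (A : Fin 8 → ℤ) (x y : ℤ)
    (hiso : 2 * (th / 1 * ((x : ℂ) + y * om)).re + ‖(1 : ℂ)⁻¹ • eupB A‖ ^ 2 = 0) :
    (y : ℝ) = eupS A / 2 ∧
      2 / Real.sqrt 3 * (th / 1 * ((x : ℂ) + y * om)).im = -(eupS A / 2) + 2 * x := by
  have h3 : Real.sqrt 3 ≠ 0 := by positivity
  have hn := eup_nB hI A
  have e1 : (th / 1 * ((x : ℂ) + y * om)) = th * (((x : ℝ) : ℂ) + ((y : ℝ) : ℂ) * om) := by
    rw [div_one]
    norm_cast
  rw [e1, eup_thre, inv_one, one_smul] at hiso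
  have hyq : (y : ℝ) = eupS A / 2 := by linarith
  refine ⟨hyq, ?_⟩
  rw [e1, eup_thim, hyq]
  field_simp
  ring

theorem eup_t1 (hI : ST_EISO) (hO : ST_EORB) (h1 : ST_ET1) (h2 : ST_ET2) {p : Pt 4}
    (hp : p ∈ SD 4) (hy : 3 / 2 ≤ hgt p) (hmin : ∀ w ∈ Orb ME8, 1 / hgt p ≤ uval w p)
    {e : ℤ × ℤ} (he : e ∈ eupU) (F : Finset (Orb ME8))
    [DecidablePred fun w : Orb ME8 => th * (w : V 4).2.2 = (e.1 + e.2 * om) * (1 : ℂ)] :
    ∑ w ∈ F.filter (fun w : Orb ME8 => th * (w : V 4).2.2 = (e.1 + e.2 * om) * (1 : ℂ)),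
      wt (uval (w : V 4) p) ≤ b1 (hgt p) + b2 (hgt p) := by
  apply eup_type hI hO hp hmin one_ne_zero he (fun A _ => eupS A / 2) (fun A => -(eupS A / 2)) 2
    (eup_Y1 hI)
  intro G hG
  have hval : ∀ g : (Fin 8 → ℤ) × ℤ, ‖(1 : ℂ)‖ ^ 2 * ((3 / 2 * (sq8 (xe ((1 : ℂ) • p.2)) g.1
      / ‖(1 : ℂ)‖ ^ 2) + hgt p) ^ 2 +
        3 * (2 / Real.sqrt 3 * (p.1 + inner ℂ ((1 : ℂ)⁻¹ • eupB g.1) p.2).im - -(eupS g.1 / 2)
        + 2 * g.2) ^ 2) / (12 * hgt p) = u1 (hgt p) (sq8 (xe ((1 : ℂ) • p.2)) g.1)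
          ((2 / Real.sqrt 3 * (p.1 + inner ℂ ((1 : ℂ)⁻¹ • eupB g.1) p.2).im - -(eupS g.1 / 2))
          + 2 * g.2) := by
    intro g
    unfold u1
    rw [norm_one, one_pow, one_mul, div_one]
  simp only [hval] at hG ⊢
  -- all the vectors of this type belong to the orbit
  have hall : ∀ A, GA A → ∀ k : ℤ, 1 / hgt p ≤ u1 (hgt p) (sq8 (xe ((1 : ℂ) • p.2)) A)
      ((2 / Real.sqrt 3 * (p.1 + inner ℂ ((1 : ℂ)⁻¹ • eupB A) p.2).im - -(eupS A / 2))
        + 2 * k) := by
    intro A hA k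
    obtain ⟨y, hy⟩ := eup_GA hA
    have hn := eup_nB hI A
    have hre : 2 * (th / 1 * (((-k : ℤ) : ℂ) + y * om)).re + ‖(1 : ℂ)⁻¹ • eupB A‖ ^ 2 = 0 := by
      have e1 : (th / 1 * (((-k : ℤ) : ℂ) + y * om))
          = th * ((((-k : ℤ) : ℝ) : ℂ) + ((y : ℝ) : ℂ) * om) := by
        rw [div_one]
        norm_cast
      rw [e1, eup_thre, inv_one, one_smul]
      linarith
    have hN : NE8 (th / 1 * (((-k : ℤ) : ℂ) + y * om)) ((1 : ℂ)⁻¹ • eupB A) := by
      refine ⟨⟨((-k : ℤ) : ℂ) + y * om, ⟨-k, y, rfl⟩, by rw [div_one]⟩, ?_, hre⟩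
      rw [inv_one, one_smul]
      exact eup_B_mem hI hA
    obtain ⟨w, hw, hw'⟩ := hO.2.1 _ _ hN 1 ⟨1, 0, by simp⟩ (by simp)
    have h10 : (1 : ℤ) ^ 2 - 1 * 0 + 0 ^ 2 = 1 := by norm_num
    have hw2 : th • w = (((((1 : ℤ) : ℂ) + ((0 : ℤ) : ℂ) * om) * 1
        * (th / 1 * (((-k : ℤ) : ℂ) + y * om)), ((((1 : ℤ) : ℂ) + ((0 : ℤ) : ℂ) * om) * 1) •
        ((1 : ℂ)⁻¹ • eupB A), (((1 : ℤ) : ℂ) + ((0 : ℤ) : ℂ) * om) * 1) : V 4) := by
      rw [hw']
      have e3 : (((1 : ℤ) : ℂ) + ((0 : ℤ) : ℂ) * om) * 1 = 1 := by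
        push_cast
        ring
      rw [e3, one_smul, one_mul, one_smul]
    have hv := eup_val hI hp one_ne_zero h10 hw2 hre
    have h5 := hmin w hw
    rw [hv, (eup_Y1 hI A (-k) y hre).2] at h5
    have h6 := hval (A, k)
    simp only at h6
    rw [← h6]
    have e4 : 2 / Real.sqrt 3 * (p.1 + inner ℂ ((1 : ℂ)⁻¹ • eupB A) p.2).im
        - -(eupS A / 2) + 2 * (k : ℝ) = 2 / Real.sqrt 3 * (p.1 + inner ℂ ((1 : ℂ)⁻¹ • eupB A) p.2).im
        - (-(eupS A / 2) + 2 * ((-k : ℤ) : ℝ)) := by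
      push_cast
      ring
    rw [e4]
    exact h5
  have k1 := h1 (hgt p) (xe ((1 : ℂ) • p.2))
    (fun A => 2 / Real.sqrt 3 * (p.1 + inner ℂ ((1 : ℂ)⁻¹ • eupB A) p.2).im - -(eupS A / 2)) hy
    hall G (fun g hg => (hG g hg).1)
  have k2 := h2 (hgt p) (xe ((1 : ℂ) • p.2))
    (fun A => 2 / Real.sqrt 3 * (p.1 + inner ℂ ((1 : ℂ)⁻¹ • eupB A) p.2).im - -(eupS A / 2)) hy
    hall G (fun g hg => (hG g hg).1)
  unfold wt
  rw [Finset.sum_add_distrib]
  exact add_le_add k1 k2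

theorem eup_t3 (hI : ST_EISO) (hO : ST_EORB) (h1 : ST_ET3) {p : Pt 4} (hp : p ∈ SD 4)
    (hy : 3 / 2 ≤ hgt p) (hmin : ∀ w ∈ Orb ME8, 1 / hgt p ≤ uval w p)
    {e : ℤ × ℤ} (he : e ∈ eupU) (F : Finset (Orb ME8))
    [DecidablePred fun w : Orb ME8 => th * (w : V 4).2.2 = (e.1 + e.2 * om) * th] :
    ∑ w ∈ F.filter (fun w : Orb ME8 => th * (w : V 4).2.2 = (e.1 + e.2 * om) * th),
      wt (uval (w : V 4) p) ≤ b3 (hgt p) := by
  have h3 : Real.sqrt 3 ≠ 0 := by positivity
  have hH : 0 < hgt p := hp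
  apply eup_type hI hO hp hmin eup_th_ne he (fun A x => 2 * x + eupS A / 2)
    (fun A => eupS A / 2) 2
  · intro n x y hiso
    have hn := eup_nB hI n
    have e1 : (th / th * ((x : ℂ) + y * om)) = (((x : ℝ) : ℂ) + ((y : ℝ) : ℂ) * om) := by
      rw [div_self eup_th_ne, one_mul]
      norm_cast
    have e2 : ((((x : ℝ) : ℂ) + ((y : ℝ) : ℂ) * om)).re = x - y / 2 := by
      simp [om]
      ring
    have e3 : ((((x : ℝ) : ℂ) + ((y : ℝ) : ℂ) * om)).im = y * (Real.sqrt 3 / 2) := by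
      simp [om]
    rw [e1, e2, norm_smul, mul_pow, norm_inv, inv_pow, eup_nth] at hiso
    have hyq : (y : ℝ) = 2 * x + eupS n / 2 := by linarith
    refine ⟨hyq, ?_⟩
    rw [e1, e3, hyq]
    field_simp
    ring
  · intro G hG
    have hval : ∀ g : (Fin 8 → ℤ) × ℤ, ‖th‖ ^ 2 * ((3 / 2 * (sq8 (xe (th • p.2)) g.1
        / ‖th‖ ^ 2) + hgt p) ^ 2 +
          3 * (2 / Real.sqrt 3 * (p.1 + inner ℂ (th⁻¹ • eupB g.1) p.2).im - eupS g.1 / 2
          + 2 * g.2) ^ 2) / (12 * hgt p) = u3 (hgt p) (sq8 (xe (th • p.2)) g.1)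
            ((2 / Real.sqrt 3 * (p.1 + inner ℂ (th⁻¹ • eupB g.1) p.2).im - eupS g.1 / 2)
            + 2 * g.2) := by
      intro g
      unfold u3
      rw [eup_nth]
      field_simp
      ring
    simp only [hval] at hG ⊢
    exact h1 (hgt p) (xe (th • p.2))
      (fun A => 2 / Real.sqrt 3 * (p.1 + inner ℂ (th⁻¹ • eupB A) p.2).im - eupS A / 2) hy G
      (fun g hg => (hG g hg).1) (fun g hg => (hG g hg).2)

theorem eup_t4 (hI : ST_EISO) (hO : ST_EORB) (h1 : ST_ET4) {p : Pt 4} (hp : p ∈ SD 4)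
    (hy : 3 / 2 ≤ hgt p) (hmin : ∀ w ∈ Orb ME8, 1 / hgt p ≤ uval w p)
    {e : ℤ × ℤ} (he : e ∈ eupU) (F : Finset (Orb ME8))
    [DecidablePred fun w : Orb ME8 => th * (w : V 4).2.2 = (e.1 + e.2 * om) * (2 : ℂ)] :
    ∑ w ∈ F.filter (fun w : Orb ME8 => th * (w : V 4).2.2 = (e.1 + e.2 * om) * (2 : ℂ)),
      wt (uval (w : V 4) p) ≤ b4 (hgt p) := by
  have h3 : Real.sqrt 3 ≠ 0 := by positivity
  have hH : 0 < hgt p := hp
  have hn2 : ‖(2 : ℂ)‖ ^ 2 = 4 := by norm_num
  apply eup_type hI hO hp hmin two_ne_zero he (fun A _ => eupS A / 4) (fun A => -(eupS A / 8)) 1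
  · intro n x y hiso
    have hn := eup_nB hI n
    have e1 : (th / 2 * ((x : ℂ) + y * om)) = (th * (((x : ℝ) : ℂ) + ((y : ℝ) : ℂ) * om)) / 2 := by
      push_cast
      ring
    have e2 : (th * (((x : ℝ) : ℂ) + ((y : ℝ) : ℂ) * om) / 2).re = -(3 / 2 * y) / 2 := by
      rw [← eup_thre x y]
      simp
    have e3 : (th * (((x : ℝ) : ℂ) + ((y : ℝ) : ℂ) * om) / 2).im
        = Real.sqrt 3 * (x - y / 2) / 2 := by
      rw [← eup_thim x y]
      simp
    rw [e1, e2, norm_smul, mul_pow, norm_inv, inv_pow, hn2] at hiso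
    have hyq : (y : ℝ) = eupS n / 4 := by linarith
    refine ⟨hyq, ?_⟩
    rw [e1, e3, hyq]
    field_simp
    ring
  · intro G hG
    have hval : ∀ g : (Fin 8 → ℤ) × ℤ, ‖(2 : ℂ)‖ ^ 2 * ((3 / 2 * (sq8 (xe ((2 : ℂ) • p.2)) g.1
        / ‖(2 : ℂ)‖ ^ 2) + hgt p) ^ 2 +
          3 * (2 / Real.sqrt 3 * (p.1 + inner ℂ ((2 : ℂ)⁻¹ • eupB g.1) p.2).im - -(eupS g.1 / 8)
          + 1 * g.2) ^ 2) / (12 * hgt p) = u4 (hgt p) (sq8 (xe ((2 : ℂ) • p.2)) g.1)
            ((2 / Real.sqrt 3 * (p.1 + inner ℂ ((2 : ℂ)⁻¹ • eupB g.1) p.2).im - -(eupS g.1 / 8))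
            + g.2) := by
      intro g
      unfold u4
      rw [hn2]
      field_simp
      ring
    simp only [hval] at hG ⊢
    exact h1 (hgt p) (xe ((2 : ℂ) • p.2))
      (fun A => 2 / Real.sqrt 3 * (p.1 + inner ℂ ((2 : ℂ)⁻¹ • eupB A) p.2).im - -(eupS A / 8)) hy G
      (fun g hg => (hG g hg).1) (fun g hg => (hG g hg).2)

/-- the vectors belonging to infinity -/
theorem eup_t0 {p : Pt 4} {e : ℤ × ℤ} (he : e ∈ eupU) (F : Finset (Orb ME8))
    [DecidablePred fun w : Orb ME8 => (w : V 4) = ((e.1 + e.2 * om : ℂ)) • w0] :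
    ∑ w ∈ F.filter (fun w : Orb ME8 => (w : V 4) = ((e.1 + e.2 * om : ℂ)) • w0),
      wt (uval (w : V 4) p) ≤ wt (1 / hgt p) := by
  apply eup_sum F _ _ (fun _ : Unit => wt (1 / hgt p)) (fun _ => True)
    (fun _ => ((e.1 + e.2 * om : ℂ)) • w0) (fun w : Orb ME8 => (w : V 4)) Subtype.val_injective
  · intro w hw
    refine ⟨(), trivial, ?_, hw⟩
    have h1 : ‖(e.1 + e.2 * om : ℂ)‖ ^ 2 = 1 := by
      rw [eup_ns]
      exact_mod_cast eupU_spec he
    rw [hw, uval_smul, h1, uval_w0, one_mul]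
  · intro H _
    have h0 : 0 ≤ wt (1 / hgt p) := eup_wt_nonneg _
    rw [Finset.sum_const, nsmul_eq_mul]
    have h1 : H.card ≤ 1 := by
      have := Finset.card_le_univ H
      simpa using this
    have h2 : (H.card : ℝ) ≤ 1 := by exact_mod_cast h1
    calc (H.card : ℝ) * wt (1 / hgt p) ≤ 1 * wt (1 / hgt p) :=
          mul_le_mul_of_nonneg_right h2 h0
      _ = _ := one_mul _

/-- vectors of large norm do not contribute -/
theorem eup_big (hO : ST_EORB) {p : Pt 4} (hp : p ∈ SD 4) (hy : 3 / 2 ≤ hgt p) {w : V 4}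
    (hw : w ∈ Orb ME8) (hc : 7 ≤ ‖th * w.2.2‖ ^ 2) : 77 / 100 ≤ uval w p := by
  obtain ⟨-, hiso, -⟩ := hO.1 w hw
  have hc0 : th * w.2.2 ≠ 0 := by
    intro h
    rw [h, norm_zero] at hc
    norm_num at hc
  have hw0 : w.2.2 ≠ 0 := fun h => hc0 (by rw [h, mul_zero])
  have hcomp : th • w = (((th * w.2.2) * (w.1 / w.2.2), (th * w.2.2) • ((w.2.2)⁻¹ • w.2.1), th * w.2.2) : V 4) := by
    refine Prod.ext ?_ (Prod.ext ?_ ?_)
    · show th * w.1 = _
      field_simp
    · show th • w.2.1 = _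
      rw [smul_smul]
      congr 1
      field_simp
    · rfl
  have hiso2 : 2 * (w.1 / w.2.2).re + ‖(w.2.2)⁻¹ • w.2.1‖ ^ 2 = 0 := by
    have h6 := congrArg Complex.re hiso
    rw [herm_self_re, Complex.zero_re] at h6
    have h7 : (w.1 * conj w.2.2).re = ‖w.2.2‖ ^ 2 * (w.1 / w.2.2).re := by
      have e : w.1 * conj w.2.2 = ((‖w.2.2‖ ^ 2 : ℝ) : ℂ) * (w.1 / w.2.2) := by
        have := Complex.mul_conj' w.2.2
        push_cast
        rw [← this]
        field_simp
      rw [e, Complex.re_ofReal_mul]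
    have h8 : ‖w.2.2‖ ^ 2 ≠ 0 := pow_ne_zero 2 (norm_ne_zero_iff.2 hw0)
    rw [h7] at h6
    rw [norm_smul, mul_pow, norm_inv, inv_pow]
    field_simp
    linarith
  rw [eup_form hp hcomp hiso2]
  have hH : 0 < hgt p := hp
  rw [le_div_iff₀ (by positivity)]
  have h9 : 0 ≤ ‖p.2 - (w.2.2)⁻¹ • w.2.1‖ ^ 2 := by positivity
  set r := ‖p.2 - (w.2.2)⁻¹ • w.2.1‖ ^ 2
  set t := (2 / Real.sqrt 3 * (p.1 + inner ℂ ((w.2.2)⁻¹ • w.2.1) p.2 + conj (w.1 / w.2.2)).im) ^ 2
  have ht : 0 ≤ t := by positivity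
  set N := ‖th * w.2.2‖ ^ 2
  have h10 : hgt p ^ 2 ≤ (3 / 2 * (2 / 3 * r) + hgt p) ^ 2 := by
    apply pow_le_pow_left₀ hH.le
    linarith
  have h11 : 7 * hgt p ^ 2 ≤ N * ((3 / 2 * (2 / 3 * r) + hgt p) ^ 2 + 3 * t) := by
    apply mul_le_mul hc _ (by positivity) (by linarith)
    linarith
  refine le_trans ?_ h11
  nlinarith

/-- the sum of the four bounds -/
theorem eup_num {H : ℝ} (hH : 3 / 2 ≤ H) :
    wt (1 / H) + (b1 H + b2 H) + b3 H + b4 H ≤ 15 / 2 := by
  have hH0 : 0 < H := by linarith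
  have hw : ∀ {K : ℝ}, H < K → wt (1 / H) ≤ wt (1 / K) := by
    intro K hK
    apply eup_wt_anti
    exact one_div_le_one_div_of_le hH0 hK.le
  have hw0 : wt (1 / H) ≤ 133 / 100 := by
    have h1 : 0 < 1 / H := by positivity
    unfold wt
    have h2 : max 0 (77 / 100 - 1 / H) ≤ 77 / 100 := max_le (by norm_num) (by linarith)
    have h3 : max 0 (14 / 25 - 1 / H) ≤ 14 / 25 := max_le (by norm_num) (by linarith)
    linarith
  unfold b1 b2 b3 b4
  by_cases h1 : H < 8 / 5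
  · rw [if_pos (by linarith), if_pos (by linarith), if_pos h1, if_pos (by linarith)]
    have h2 := hw h1
    have h3 : wt (1 / (8 / 5)) = 29 / 200 := by
      unfold wt
      rw [max_eq_right (by norm_num), max_eq_left (by norm_num)]
      norm_num
    rw [h3] at h2
    linarith
  · rw [not_lt] at h1
    by_cases h2 : H < 17 / 10
    · rw [if_pos h2, if_pos (by linarith), if_neg (by linarith), if_pos h2, if_pos h2]
      have h3 := hw h2
      have h4 : wt (1 / (17 / 10)) = 77 / 100 - 10 / 17 := by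
        unfold wt
        rw [max_eq_right (by norm_num), max_eq_left (by norm_num)]
        norm_num
      rw [h4] at h3
      linarith
    · rw [not_lt] at h2
      by_cases h3 : H < 89 / 50
      · rw [if_neg (by linarith), if_pos h3, if_neg (by linarith), if_neg (by linarith), if_pos h3,
          if_neg (by linarith), if_pos (by linarith)]
        have h4 := hw h3
        have h5 : wt (1 / (89 / 50)) = 77 / 100 - 50 / 89 := by
          unfold wt
          rw [max_eq_right (by norm_num), max_eq_left (by norm_num)]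
          norm_num
        rw [h5] at h4
        linarith
      · rw [not_lt] at h3
        by_cases h4 : H < 19 / 10
        · rw [if_neg (by linarith), if_neg (by linarith), if_pos h4, if_neg (by linarith),
            if_neg (by linarith), if_neg (by linarith), if_pos h4, if_neg (by linarith), if_pos h4]
          have h5 := hw h4
          have h6 : wt (1 / (19 / 10)) = 133 / 100 - 20 / 19 := by
            unfold wt
            rw [max_eq_right (by norm_num), max_eq_right (by norm_num)]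
            norm_num
          rw [h6] at h5
          linarith
        · rw [not_lt] at h4
          by_cases h5 : H < 2
          · rw [if_neg (by linarith), if_neg (by linarith), if_neg (by linarith), if_pos h5,
              if_neg (by linarith), if_neg (by linarith), if_neg (by linarith),
              if_neg (by linarith), if_pos h5, if_neg (by linarith), if_neg (by linarith),
              if_pos h5]
            have h6 := hw h5
            have h7 : wt (1 / 2) = 33 / 100 := by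
              unfold wt
              rw [max_eq_right (by norm_num), max_eq_right (by norm_num)]
              norm_num
            rw [h7] at h6
            linarith
          · rw [not_lt] at h5
            by_cases h6 : H < 12 / 5
            · rw [if_neg (by linarith), if_neg (by linarith), if_neg (by linarith),
                if_neg (by linarith), if_pos (by linarith), if_neg (by linarith),
                if_neg (by linarith), if_neg (by linarith), if_neg (by linarith),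
                if_neg (by linarith), if_pos h6, if_neg (by linarith), if_neg (by linarith),
                if_neg (by linarith), if_pos h6]
              have h7 := hw h6
              have h8 : wt (1 / (12 / 5)) = 133 / 100 - 5 / 6 := by
                unfold wt
                rw [max_eq_right (by norm_num), max_eq_right (by norm_num)]
                norm_num
              rw [h8] at h7
              linarith
            · rw [not_lt] at h6
              by_cases h7 : H < 31 / 10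
              · rw [if_neg (by linarith), if_neg (by linarith), if_neg (by linarith),
                  if_neg (by linarith), if_pos h7, if_neg (by linarith),
                  if_neg (by linarith), if_neg (by linarith), if_neg (by linarith),
                  if_neg (by linarith), if_neg (by linarith), if_pos h7, if_neg (by linarith),
                  if_neg (by linarith), if_neg (by linarith), if_neg (by linarith)]
                have h8 := hw h7
                have h9 : wt (1 / (31 / 10)) = 133 / 100 - 20 / 31 := by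
                  unfold wt
                  rw [max_eq_right (by norm_num), max_eq_right (by norm_num)]
                  norm_num
                rw [h9] at h8
                linarith
              · rw [not_lt] at h7
                rw [if_neg (by linarith), if_neg (by linarith), if_neg (by linarith),
                  if_neg (by linarith), if_neg (by linarith), if_neg (by linarith),
                  if_neg (by linarith), if_neg (by linarith), if_neg (by linarith),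
                  if_neg (by linarith), if_neg (by linarith), if_neg (by linarith),
                  if_neg (by linarith), if_neg (by linarith), if_neg (by linarith),
                  if_neg (by linarith)]
                linarith

theorem st_EUP (hI : ST_EISO) (hO : ST_EORB) (h1 : ST_ET1) (h2 : ST_ET2) (h3 : ST_ET3)
    (h4 : ST_ET4) : ST_EUP := by
  classical
  intro p hp hy hmin
  have hH : 0 < hgt p := hp
  have hf : ∀ w : Orb ME8, psE8 (1 / uval (w : V 4) p) = wt (uval (w : V 4) p) := by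
    intro w
    unfold psE8
    rw [one_div_one_div]
  -- the real bound for finite sums
  have key : ∀ F : Finset (Orb ME8), ∑ w ∈ F, wt (uval (w : V 4) p) ≤ 45 := by
    intro F
    have hle : ∀ w : Orb ME8, wt (uval (w : V 4) p) ≤ ∑ e ∈ eupU,
        ((if (w : V 4) = ((e.1 + e.2 * om : ℂ)) • w0 then wt (uval (w : V 4) p) else 0) +
        (if th * (w : V 4).2.2 = (e.1 + e.2 * om) * (1 : ℂ) then wt (uval (w : V 4) p) else 0) +
        (if th * (w : V 4).2.2 = (e.1 + e.2 * om) * th then wt (uval (w : V 4) p) else 0) +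
        (if th * (w : V 4).2.2 = (e.1 + e.2 * om) * (2 : ℂ) then wt (uval (w : V 4) p) else 0)) := by
      intro w
      have h0 : 0 ≤ wt (uval (w : V 4) p) := eup_wt_nonneg _
      have hnn : ∀ e ∈ eupU, 0 ≤
        ((if (w : V 4) = ((e.1 + e.2 * om : ℂ)) • w0 then wt (uval (w : V 4) p) else 0) +
        (if th * (w : V 4).2.2 = (e.1 + e.2 * om) * (1 : ℂ) then wt (uval (w : V 4) p) else 0) +
        (if th * (w : V 4).2.2 = (e.1 + e.2 * om) * th then wt (uval (w : V 4) p) else 0) +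
        (if th * (w : V 4).2.2 = (e.1 + e.2 * om) * (2 : ℂ) then wt (uval (w : V 4) p) else 0)) := by
        intro e _
        split_ifs <;> linarith
      have hone : ∀ e ∈ eupU, ((w : V 4) = ((e.1 + e.2 * om : ℂ)) • w0 ∨
          th * (w : V 4).2.2 = (e.1 + e.2 * om) * (1 : ℂ) ∨
          th * (w : V 4).2.2 = (e.1 + e.2 * om) * th ∨
          th * (w : V 4).2.2 = (e.1 + e.2 * om) * (2 : ℂ)) →
          wt (uval (w : V 4) p) ≤ ∑ e ∈ eupU,
        ((if (w : V 4) = ((e.1 + e.2 * om : ℂ)) • w0 then wt (uval (w : V 4) p) else 0) +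
        (if th * (w : V 4).2.2 = (e.1 + e.2 * om) * (1 : ℂ) then wt (uval (w : V 4) p) else 0) +
        (if th * (w : V 4).2.2 = (e.1 + e.2 * om) * th then wt (uval (w : V 4) p) else 0) +
        (if th * (w : V 4).2.2 = (e.1 + e.2 * om) * (2 : ℂ) then wt (uval (w : V 4) p) else 0)) := by
        intro e he hcase
        refine le_trans ?_ (Finset.single_le_sum hnn he)
        rcases hcase with h | h | h | h
        · rw [if_pos h]
          split_ifs <;> linarith
        · rw [if_pos h]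
          split_ifs <;> linarith
        · rw [if_pos h]
          split_ifs <;> linarith
        · rw [if_pos h]
          split_ifs <;> linarith
      obtain ⟨⟨-, -, hE⟩, -, hcz⟩ := hO.1 (w : V 4) w.2
      by_cases hz : (w : V 4).2.2 = 0
      · obtain ⟨s, ⟨a, b, hs⟩, hs1, hws⟩ := hcz hz
        have hab : a ^ 2 - a * b + b ^ 2 = 1 := by
          have := eup_ns a b
          rw [← hs, hs1, one_pow] at this
          exact_mod_cast this.symm
        apply hone (a, b) (eupU_mem hab)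
        left
        rw [hws, hs]
      · obtain ⟨a, b, hab⟩ := hE
        have hab' : th * (w : V 4).2.2 = a + b * om := hab
        have hne : th * (w : V 4).2.2 ≠ 0 := mul_ne_zero eup_th_ne hz
        have hn := eup_ns a b
        rw [← hab'] at hn
        by_cases h7 : a ^ 2 - a * b + b ^ 2 < 7
        · have hpos : 0 < a ^ 2 - a * b + b ^ 2 := by
            have h5 : 0 < ‖th * (w : V 4).2.2‖ ^ 2 := by positivity
            rw [hn] at h5
            exact_mod_cast h5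
          obtain ⟨e, he, hcase⟩ := eup_small hpos h7
          apply hone e he
          right
          rcases hcase with ⟨ha, hb⟩ | ⟨ha, hb⟩ | ⟨ha, hb⟩
          · left
            rw [hab', ha, hb, mul_one]
          · right
            left
            rw [hab', ha, hb, eup_th]
            push_cast
            linear_combination (-(2 * e.2 : ℂ)) * eup_om2
          · right
            right
            rw [hab', ha, hb]
            push_cast
            ring
        · have hbig : 77 / 100 ≤ uval (w : V 4) p := by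
            apply eup_big hO hp hy w.2
            rw [hn]
            have : 7 ≤ a ^ 2 - a * b + b ^ 2 := not_lt.1 h7
            exact_mod_cast this
          have hz0 : wt (uval (w : V 4) p) = 0 := by
            unfold wt
            rw [max_eq_left (by linarith), max_eq_left (by linarith), add_zero]
          exact hz0.le.trans (Finset.sum_nonneg hnn)
    have hsum : ∑ w ∈ F, wt (uval (w : V 4) p) ≤ ∑ e ∈ eupU,
        (wt (1 / hgt p) + (b1 (hgt p) + b2 (hgt p)) + b3 (hgt p) + b4 (hgt p)) := by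
      refine (Finset.sum_le_sum fun w _ => hle w).trans ?_
      rw [Finset.sum_comm]
      apply Finset.sum_le_sum
      intro e he
      rw [Finset.sum_add_distrib, Finset.sum_add_distrib, Finset.sum_add_distrib, ← Finset.sum_filter,
        ← Finset.sum_filter, ← Finset.sum_filter, ← Finset.sum_filter]
      exact add_le_add (add_le_add (add_le_add (eup_t0 he F)
        (eup_t1 hI hO h1 h2 hp hy hmin he F)) (eup_t3 hI hO h3 hp hy hmin he F))
        (eup_t4 hI hO h4 hp hy hmin he F)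
    refine hsum.trans ?_
    rw [Finset.sum_const]
    have hcard : eupU.card = 6 := by decide
    rw [hcard, nsmul_eq_mul]
    push_cast
    have := eup_num hy
    linarith
  rw [ENNReal.tsum_eq_iSup_sum]
  apply iSup_le
  intro F
  have e : ∑ w ∈ F, ENNReal.ofReal (psE8 (1 / uval (w : V 4) p)) =
      ENNReal.ofReal (∑ w ∈ F, wt (uval (w : V 4) p)) := by
    rw [ENNReal.ofReal_sum_of_nonneg (fun w _ => eup_wt_nonneg _)]
    apply Finset.sum_congr rfl
    intro w _
    rw [hf w]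
  rw [e]
  exact ENNReal.ofReal_le_ofReal (key F)

end Pool.Agent.Helper19.Un
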